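import Mathlib.Order.Filter.AtTopBot.Basic
import Mathlib.Data.Set.Finite.Lattice
import Mathlib.Tactic

/-!
# Positive scalar curvature on closed aspherical manifolds: finiteness suffices

If a closed aspherical manifold `M` has a metric of positive scalar curvature, so has `M × N` for every
closed manifold `N` (multiply the metric of `M` by a small constant), and `M × N` is aspherical if `N` is
so. We show that the conjecture that there is no such `M` is equivalent to each of: in infinitely many
dimensions there are (up to homeomorphism) only finitely many closed aspherical manifolds with positive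
scalar curvature; in infinitely many dimensions their first Betti numbers are bounded; for some closed
aspherical `N`, in infinitely many dimensions no product `M × N`, `M` orientable and aspherical of
positive dimension, has a metric of positive scalar curvature.
-/

set_option autoImplicit false

namespace Pool.Agent.Results.MP_df705a_gt.FinitenessSuffices

open Filter

universe u

/-- Closed aspherical manifolds. -/
structure Mfds where
  /-- the closed aspherical manifolds -/
  Mfd : Type u
  /-- homeomorphism classes -/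
  Class : Type u
  /-- the homeomorphism class of a manifold -/
  cls : Mfd → Class
  /-- the dimension -/
  dim : Mfd → ℕ
  /-- the first Betti number of a homeomorphism class -/
  b1 : Class → ℕ
  /-- the manifold has a metric of positive scalar curvature -/
  PSC : Mfd → Prop
  /-- the manifold is orientable -/
  Orientable : Mfd → Prop
  /-- the product of two manifolds -/
  prod : Mfd → Mfd → Mfd

/-- The known properties. -/
structure IsKnown (T : Mfds.{u}) : Prop where
  /-- the dimension of a product -/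
  dim_prod : ∀ M N, T.dim (T.prod M N) = T.dim M + T.dim N
  /-- the first Betti number of a product -/
  b1_prod : ∀ M N, T.b1 (T.cls (T.prod M N)) = T.b1 (T.cls M) + T.b1 (T.cls N)
  /-- `g_M / t + g_N` has positive scalar curvature for large `t` -/
  psc_prod : ∀ M N, T.PSC M → T.PSC (T.prod M N)
  /-- products of orientable manifolds are orientable -/
  or_prod : ∀ M N, T.Orientable M → T.Orientable N → T.Orientable (T.prod M N)
  /-- the orientation covering, to which metrics can be pulled back -/
  cover : ∀ M, ∃ M', T.dim M' = T.dim M ∧ T.Orientable M' ∧ (T.PSC M → T.PSC M')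
  /-- the circle -/
  circle : ∃ S, T.dim S = 1 ∧ T.Orientable S
  /-- the closed orientable surface of genus `g + 1` -/
  surface : ∀ g : ℕ, ∃ S, T.dim S = 2 ∧ T.b1 (T.cls S) = 2 * (g + 1)
  /-- a point has no metric of positive scalar curvature -/
  dim_pos : ∀ M, T.PSC M → 0 < T.dim M

variable {T : Mfds.{u}}

/-- The homeomorphism classes of closed aspherical `n`-manifolds which contain a manifold with positive
scalar curvature. -/
def Bad (T : Mfds.{u}) (n : ℕ) : Set T.Class := {C | ∃ M, T.dim M = n ∧ T.PSC M ∧ T.cls M = C}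

theorem raise (hT : IsKnown T) {M : T.Mfd} (h : T.PSC M) (ho : T.Orientable M) (m : ℕ) :
    ∃ M', T.dim M' = T.dim M + m ∧ T.PSC M' ∧ T.Orientable M' := by
  obtain ⟨S, hS, hSo⟩ := hT.circle
  induction m with
  | zero => exact ⟨M, rfl, h, ho⟩
  | succ m ih =>
    obtain ⟨M', h1, h2, h3⟩ := ih
    exact ⟨T.prod M' S, by rw [hT.dim_prod, h1, hS]; ring, hT.psc_prod _ _ h2,
      hT.or_prod _ _ h3 hSo⟩

/-- **Positive scalar curvature on closed aspherical manifolds.** -/
theorem result (T : Mfds.{u}) (hT : IsKnown T) :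
    (∀ M, T.PSC M → ∀ n, T.dim M + 2 ≤ n → ∀ B : ℕ, ∃ M', T.dim M' = n ∧ T.PSC M' ∧
      B ≤ T.b1 (T.cls M')) ∧
    List.TFAE [
      ∀ M, ¬ T.PSC M,
      ∃ᶠ n : ℕ in atTop, ∀ M, T.dim M = n → ¬ T.PSC M,
      ∃ᶠ n : ℕ in atTop, (Bad T n).Finite,
      ∃ᶠ n : ℕ in atTop, ∃ B : ℕ, ∀ M, T.dim M = n → T.PSC M → T.b1 (T.cls M) ≤ B,
      ∃ N, ∃ᶠ n : ℕ in atTop, ∀ M, T.dim M = n → T.Orientable M → ¬ T.PSC (T.prod M N)] := by
  have key : ∀ M, T.PSC M → ∀ n, T.dim M + 2 ≤ n → ∀ B : ℕ, ∃ M', T.dim M' = n ∧ T.PSC M' ∧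
      B ≤ T.b1 (T.cls M') := by
    intro M hM n hn B
    obtain ⟨M₁, h1, h2, h3⟩ := hT.cover M
    obtain ⟨M₂, h4, h5, -⟩ := raise hT (h3 hM) h2 (n - (T.dim M + 2))
    obtain ⟨S, hS1, hS2⟩ := hT.surface B
    refine ⟨T.prod M₂ S, ?_, hT.psc_prod _ _ h5, ?_⟩
    · rw [hT.dim_prod, h4, h1, hS1]
      omega
    · rw [hT.b1_prod, hS2]
      omega
  refine ⟨key, ?_⟩
  tfae_have 1 → 2 := fun h => (Eventually.of_forall fun n M _ => h M).frequently
  tfae_have 2 → 3 := by
    intro h
    refine h.mono fun n hn => ?_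
    convert Set.finite_empty
    refine Set.eq_empty_iff_forall_notMem.2 ?_
    rintro C ⟨M, h1, h2, -⟩
    exact hn M h1 h2
  tfae_have 3 → 4 := by
    intro h
    refine h.mono fun n hn => ?_
    obtain ⟨B, hB⟩ := (hn.image T.b1).bddAbove
    exact ⟨B, fun M h1 h2 => hB ⟨T.cls M, ⟨M, h1, h2, rfl⟩, rfl⟩⟩
  tfae_have 4 → 1 := by
    intro h M hM
    obtain ⟨n, hn, B, hB⟩ := (frequently_atTop.1 h) (T.dim M + 2)
    obtain ⟨M', h1, h2, h3⟩ := key M hM n hn (B + 1)
    have := hB M' h1 h2
    omega
  tfae_have 1 → 5 := by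
    intro h
    obtain ⟨S, -, -⟩ := hT.circle
    exact ⟨S, (Eventually.of_forall fun n M _ _ => h _).frequently⟩
  tfae_have 5 → 1 := by
    rintro ⟨N, h⟩ M hM
    obtain ⟨M₁, h1, h2, h3⟩ := hT.cover M
    obtain ⟨n, hn, hno⟩ := (frequently_atTop.1 h) (T.dim M)
    obtain ⟨M₂, h4, h5, h6⟩ := raise hT (h3 hM) h2 (n - T.dim M)
    exact hno M₂ (by rw [h4, h1]; omega) h6 (hT.psc_prod _ _ h5)
  tfae_finish

end Pool.Agent.Results.MP_df705a_gt.FinitenessSuffices
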